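import Pool.Agent.Y405.MixMain
import Pool.Agent.Helper431.CycleIso

set_option autoImplicit false

/-!
Counting and the general bound for the mixed metric dimension.
-/

namespace Pool.Agent.Y405

open SimpleGraph

variable {V : Type*} {G : SimpleGraph V} {r : V} {p : V → V}

/-- the finset of non-tree edges -/
noncomputable def NEf [Fintype V] (G : SimpleGraph V) (p : V → V) : Finset (Sym2 V) := by
  classical exact Finset.univ.filter (fun e => ∃ u v, e = s(u, v) ∧ NTE G p u v)

theorem mem_NEf [Fintype V] {e : Sym2 V} :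
    e ∈ NEf G p ↔ ∃ u v, e = s(u, v) ∧ NTE G p u v := by
  classical
  simp [NEf]

/-- the ends of non-tree edges -/
noncomputable def Wff [Fintype V] (G : SimpleGraph V) (p : V → V) : Finset V := by
  classical exact Finset.univ.filter (fun v => ∃ u, NTE G p v u)

theorem mem_Wff [Fintype V] {v : V} : v ∈ Wff G p ↔ ∃ u, NTE G p v u := by
  classical
  simp [Wff]

theorem card_Wff_le [Fintype V] : (Wff G p).card ≤ 2 * (NEf G p).card := by
  classical
  have h : Wff G p ⊆ (NEf G p).biUnion (fun e => e.toFinset) := by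
    intro v hv
    rw [mem_Wff] at hv
    obtain ⟨u, hu⟩ := hv
    rw [Finset.mem_biUnion]
    exact ⟨s(v, u), mem_NEf.mpr ⟨v, u, rfl, hu⟩, by simp⟩
  calc (Wff G p).card ≤ _ := Finset.card_le_card h
    _ ≤ ∑ e ∈ NEf G p, e.toFinset.card := Finset.card_biUnion_le
    _ ≤ ∑ e ∈ NEf G p, 2 :=
      Finset.sum_le_sum (fun e _ => Pool.Agent.Helper431.card_toFinset_le e)
    _ = 2 * (NEf G p).card := by rw [Finset.sum_const, smul_eq_mul, mul_comm]

theorem card_Wff_lt [Fintype V] {s z z' : V} (hne : z ≠ z') (h1 : NTE G p s z)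
    (h2 : NTE G p s z') : (Wff G p).card + 1 ≤ 2 * (NEf G p).card := by
  classical
  let t : Sym2 V → Finset V := fun e => e.toFinset.erase s
  have h : Wff G p ⊆ insert s ((NEf G p).biUnion t) := by
    intro v hv
    rw [mem_Wff] at hv
    obtain ⟨u, hu⟩ := hv
    by_cases hvs : v = s
    · subst hvs; exact Finset.mem_insert_self _ _
    · apply Finset.mem_insert_of_mem
      rw [Finset.mem_biUnion]
      exact ⟨s(v, u), mem_NEf.mpr ⟨v, u, rfl, hu⟩, by simp [t, hvs]⟩
  have e1 : s(s, z) ∈ NEf G p := mem_NEf.mpr ⟨s, z, rfl, h1⟩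
  have e2 : s(s, z') ∈ NEf G p := mem_NEf.mpr ⟨s, z', rfl, h2⟩
  have hne' : s(s, z') ≠ s(s, z) := by
    intro h
    rw [Sym2.eq_iff] at h
    rcases h with ⟨-, h⟩ | ⟨h, h'⟩
    · exact hne h.symm
    · exact hne (h.symm.trans h'.symm |>.symm ▸ rfl)
  have e2' : s(s, z') ∈ (NEf G p).erase s(s, z) := Finset.mem_erase.mpr ⟨hne', e2⟩
  have ht1 : ∀ y : V, (t s(s, y)).card ≤ 1 := by
    intro y
    have : t s(s, y) ⊆ {y} := by
      intro x hx
      simp only [t, Finset.mem_erase, Sym2.mem_toFinset, Sym2.mem_iff] at hx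
      rcases hx with ⟨hx1, hx2 | hx2⟩
      · exact absurd hx2 hx1
      · simp [hx2]
    exact (Finset.card_le_card this).trans (by simp)
  have ht2 : ∀ e : Sym2 V, (t e).card ≤ 2 := fun e =>
    (Finset.card_le_card (Finset.erase_subset _ _)).trans
      (Pool.Agent.Helper431.card_toFinset_le e)
  have hsum : ∑ e ∈ NEf G p, (t e).card + 2 ≤ 2 * (NEf G p).card := by
    rw [← Finset.add_sum_erase _ _ e1, ← Finset.add_sum_erase _ _ e2']
    have k1 := ht1 z
    have k2 := ht1 z'
    have k3 : ∑ e ∈ ((NEf G p).erase s(s, z)).erase s(s, z'), (t e).card ≤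
        ∑ e ∈ ((NEf G p).erase s(s, z)).erase s(s, z'), 2 :=
      Finset.sum_le_sum (fun e _ => ht2 e)
    rw [Finset.sum_const, smul_eq_mul, Finset.card_erase_of_mem e2', Finset.card_erase_of_mem e1]
      at k3
    have k4 : 0 < ((NEf G p).erase s(s, z)).card := Finset.card_pos.mpr ⟨_, e2'⟩
    rw [Finset.card_erase_of_mem e1] at k4
    omega
  have k5 : (Wff G p).card ≤ (insert s ((NEf G p).biUnion t)).card := Finset.card_le_card h
  have k6 := Finset.card_insert_le s ((NEf G p).biUnion t)
  have k7 : ((NEf G p).biUnion t).card ≤ ∑ e ∈ NEf G p, (t e).card := Finset.card_biUnion_le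
  omega

/-- there are at most `|E| - |V| + 1` non-tree edges. -/
theorem card_NEf_le [Fintype V] [DecidableEq V] [DecidableRel G.Adj] (B : BTree G r p) :
    (NEf G p).card + Fintype.card V ≤ G.edgeFinset.card + 1 := by
  classical
  let T : Finset (Sym2 V) := (Finset.univ.erase r).image (fun v => s(v, p v))
  have hnot : ∀ {v : V}, v ∈ Finset.univ.erase r → v ≠ r := by
    intro v hv
    exact (Finset.mem_erase.mp hv).1
  have hTcard : T.card = Fintype.card V - 1 := by
    rw [Finset.card_image_of_injOn, Finset.card_erase_of_mem (Finset.mem_univ r),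
      Finset.card_univ]
    intro v hv w hw h
    have hv' := B.par v (hnot hv)
    have hw' := B.par w (hnot hw)
    simp only [Sym2.eq_iff] at h
    rcases h with h | ⟨h1, h2⟩
    · exact h.1
    · rw [← h1] at hw'
      rw [h2] at hv'
      omega
  have hTG : T ⊆ G.edgeFinset := by
    intro e he
    simp only [T, Finset.mem_image] at he
    obtain ⟨v, hv, rfl⟩ := he
    rw [mem_edgeFinset]
    exact (B.par v (hnot hv)).1
  have hNG : NEf G p ⊆ G.edgeFinset := by
    intro e he
    rw [mem_NEf] at he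
    obtain ⟨u, v, rfl, h⟩ := he
    rw [mem_edgeFinset]
    exact h.1
  have hNT : Disjoint (NEf G p) T := by
    rw [Finset.disjoint_left]
    intro e he he'
    rw [mem_NEf] at he
    obtain ⟨u, v, rfl, h⟩ := he
    simp only [T, Finset.mem_image, Sym2.eq_iff] at he'
    obtain ⟨w, hw, (⟨h1, h2⟩ | ⟨h1, h2⟩)⟩ := he'
    · subst h1; exact h.2.1 h2
    · subst h1; exact h.2.2 h2
  have h1 := Finset.card_le_card (Finset.union_subset hNG hTG)
  rw [Finset.card_union_of_disjoint hNT, hTcard] at h1
  have h2 : 0 < Fintype.card V := Fintype.card_pos_iff.mpr ⟨r⟩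
  omega

/-- The case of minimum degree at least two. -/
theorem bound_two [Fintype V] [DecidableEq V] [DecidableRel G.Adj] (hc : G.Connected)
    (hdeg : ∀ v, 2 ≤ G.degree v) (h3 : ∃ v, 3 ≤ G.degree v) :
    ∃ S : Finset V, MixRes G (S : Set V) ∧
      S.card + 2 * Fintype.card V ≤ 2 * G.edgeFinset.card + 2 := by
  classical
  obtain ⟨y0, hy0⟩ := h3
  obtain ⟨y, r, hy, hry, hor⟩ := exists_pair hc hdeg hy0
  obtain ⟨p, B⟩ := exists_bTree hc r
  have hNE := card_NEf_le B
  have hW := card_Wff_le (G := G) (p := p)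
  by_cases hm : ∀ v u u', NTE G p v u → NTE G p v u' → u = u'
  swap
  · push Not at hm
    obtain ⟨v, u, u', h1, h2, hne⟩ := hm
    have hlt := card_Wff_lt hne h1 h2
    refine ⟨insert r (Wff G p), ?_, ?_⟩
    · apply Good.mixRes B
      apply good_all B (fun v => le_trans (by omega) (hdeg v))
      · intro v u h
        simp only [Finset.coe_insert, Set.mem_insert_iff, Finset.mem_coe, mem_Wff]
        exact Or.inr ⟨u, h⟩
      · intro v hv
        have := hdeg v
        omega
      · simp
    · have := Finset.card_insert_le r (Wff G p)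
      omega
  -- the matching case: a general way to conclude
  have fin : ∀ z0 z2 c : V, z0 ≠ r → NTE G p z0 z2 → G.dist r z2 ≤ G.dist r z0 → c ≠ r →
      p c = z0 → (G.dist r z2 = G.dist r z0 →
        ∃ s u, NTE G p s u ∧ s ≠ z0 ∧ G.dist s z0 < G.dist s z2) →
      ∃ S : Finset V, MixRes G (S : Set V) ∧
        S.card + 2 * Fintype.card V ≤ 2 * G.edgeFinset.card + 2 := by
    intro z0 z2 c g1 g2 g3 g4 g5 g6
    refine ⟨(insert r (Wff G p)).erase z0, ?_, ?_⟩
    · apply Good.mixRes B
      apply good_drop B hdeg hm g1 g2 g3 g4 g5 g6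
      intro v
      simp only [Finset.coe_erase, Finset.coe_insert, Set.mem_sdiff, Set.mem_insert_iff,
        Finset.mem_coe, mem_Wff, Set.mem_singleton_iff]
      tauto
    · rw [Finset.card_erase_of_mem (Finset.mem_insert_of_mem (mem_Wff.mpr ⟨z2, g2⟩))]
      have := Finset.card_insert_le r (Wff G p)
      omega
  have hyr : y ≠ r := hry.symm
  have hpy := B.par y hyr
  -- the partner of y
  have hpart : ∃ y2, NTE G p y y2 ∧ G.dist r y2 ≤ G.dist r y := by
    rcases hor with ⟨a, b, hab, ha, hb, h1, h2⟩ | ⟨a, ha, h1⟩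
    · have main : ∀ a, G.Adj y a → G.dist r a + 1 = G.dist r y → a ≠ p y → NTE G p y a := by
        intro a ha h1 hne
        exact nte_symm (nte_vert B ha.symm h1.symm hne.symm)
      by_cases hap : a = p y
      · exact ⟨b, main b hb h2 (fun e => hab (hap.trans e.symm)), by omega⟩
      · exact ⟨a, main a ha h1 hap, by omega⟩
    · exact ⟨a, nte_hor B ha h1.symm, by omega⟩
  obtain ⟨y2, hy2, hle⟩ := hpart
  -- a child of y
  have hchild : ∃ c, c ≠ r ∧ p c = y := by
    have hex : ∃ c ∈ G.neighborFinset y, c ∉ ({p y, y2} : Finset V) := by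
      by_contra hcon
      push Not at hcon
      have h1 := Finset.card_le_card (show G.neighborFinset y ⊆ {p y, y2} from hcon)
      rw [card_neighborFinset_eq_degree] at h1
      have h2 := Finset.card_le_two (a := p y) (b := y2)
      omega
    obtain ⟨c, hc1, hc2⟩ := hex
    rw [mem_neighborFinset] at hc1
    simp only [Finset.mem_insert, Finset.mem_singleton, not_or] at hc2
    have hpc : p c = y := by
      by_contra hpc
      exact hc2.2 (hm y c y2 ⟨hc1, fun e => hc2.1 e.symm, hpc⟩ hy2)
    refine ⟨c, ?_, hpc⟩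
    rintro rfl
    rw [B.root] at hpc
    exact hyr hpc.symm
  obtain ⟨c, hcr, hcp⟩ := hchild
  rcases Nat.lt_or_eq_of_le hle with hlt | heq
  · exact fin y y2 c hyr hy2 hle hcr hcp (fun e => by omega)
  · -- horizontal case
    have hcd := (B.par c hcr).2
    rw [hcp] at hcd
    have hb1 : ∃ w ∈ {v | (∃ u, NTE G p v u) ∧ v ≠ y ∧ v ≠ y2}, Desc p y w := by
      obtain ⟨v, hv, hch⟩ := exists_childless B c
      have hdv := B.desc_dist hv
      refine ⟨v, ⟨childless_nte B (B.ne_root_of_desc hcr hv) hch (hdeg v), ?_, ?_⟩,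
        B.desc_of_child hcp hv⟩
      · rintro rfl; omega
      · rintro rfl; omega
    have hb3 : ∀ a z, Desc p y a ∨ Desc p y2 a → G.Adj a z →
        G.dist r z = G.dist r a + 1 → p z ≠ a →
        a ∈ {v | (∃ u, NTE G p v u) ∧ v ≠ y ∧ v ≠ y2} := by
      intro a z _ g1 g2 g3
      have hn := nte_vert B g1 g2 g3
      refine ⟨⟨z, hn⟩, ?_, ?_⟩
      · rintro rfl
        have := hm _ _ _ hn hy2
        subst this
        omega
      · rintro rfl
        have := hm _ _ _ hn (nte_symm hy2)
        subst this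
        omega
    rcases B.main_lemma {v | (∃ u, NTE G p v u) ∧ v ≠ y ∧ v ≠ y2} heq.symm hy2.1.ne hb1 hb3 with
      ⟨w, ⟨⟨u, hw1⟩, hw2, hw3⟩, hD, hlt⟩ | ⟨w, ⟨⟨u, hw1⟩, hw2, hw3⟩, hD, hlt⟩
    · exact fin y y2 c hyr hy2 hle hcr hcp (fun _ => ⟨w, u, hw1, hw2, hlt⟩)
    · obtain ⟨c2, g1, g2, g3⟩ := B.desc_child hD hw3
      refine fin y2 y c2 ?_ (nte_symm hy2) heq.ge g1 g2 (fun _ => ⟨w, u, hw1, hw3, hlt⟩)
      rintro rfl
      rw [dist_self] at heq
      exact hyr (B.eq_of_dist heq.symm).symm

/-- **Bound for all connected graphs that are not 2-regular.** -/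
theorem bound_all [Fintype V] [DecidableEq V] [DecidableRel G.Adj] (hc : G.Connected)
    (hreg : ¬ ∀ v, G.degree v = 2) :
    ∃ S : Finset V, MixRes G (S : Set V) ∧
      S.card + 2 * Fintype.card V ≤
        (Finset.univ.filter (fun v => G.degree v = 1)).card + 2 * G.edgeFinset.card + 2 := by
  classical
  have : Nonempty V := hc.nonempty
  rcases subsingleton_or_nontrivial V with hsub | hnt
  · refine ⟨∅, ⟨?_, ?_, ?_⟩, ?_⟩
    · intro x y h; exact absurd (Subsingleton.elim x y) h
    · intro x a b h; exact absurd (Subsingleton.elim a b) h.ne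
    · intro a b c d h; exact absurd (Subsingleton.elim a b) h.ne
    · have := Fintype.card_le_one_iff_subsingleton.mpr hsub
      simp only [Finset.card_empty]
      omega
  · have hdeg1 : ∀ v, 1 ≤ G.degree v := by
      intro v
      exact hc.preconnected.degree_pos_of_nontrivial v
    by_cases hl : ∃ r, G.degree r = 1
    · obtain ⟨r, hr⟩ := hl
      obtain ⟨p, B⟩ := exists_bTree hc r
      have hNE := card_NEf_le B
      have hW := card_Wff_le (G := G) (p := p)
      refine ⟨Wff G p ∪ Finset.univ.filter (fun v => G.degree v = 1), ?_, ?_⟩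
      · apply Good.mixRes B
        apply good_all B hdeg1
        · intro v u h
          rw [Finset.mem_coe, Finset.mem_union]
          exact Or.inl (mem_Wff.mpr ⟨u, h⟩)
        · intro v hv
          rw [Finset.mem_coe, Finset.mem_union]
          exact Or.inr (by simpa using hv)
        · rw [Finset.mem_coe, Finset.mem_union]
          exact Or.inr (by simpa using hr)
      · have := Finset.card_union_le (Wff G p) (Finset.univ.filter (fun v => G.degree v = 1))
        omega
    · push Not at hl
      have hdeg2 : ∀ v, 2 ≤ G.degree v := by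
        intro v
        have h1 := hdeg1 v
        have h2 := hl v
        omega
      have h3 : ∃ v, 3 ≤ G.degree v := by
        by_contra hcon
        push Not at hcon
        apply hreg
        intro v
        have h1 := hdeg2 v
        have h2 := hcon v
        omega
      obtain ⟨S, hS, hcard⟩ := bound_two hc hdeg2 h3
      exact ⟨S, hS, by omega⟩

end Pool.Agent.Y405
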