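import Pool.Agent.Y405.MixTree

set_option autoImplicit false

/-!
The choice of root and of the landmark that is left out.
-/

namespace Pool.Agent.Y405

open SimpleGraph

variable {V : Type*} {G : SimpleGraph V} {r : V} {p : V → V}

theorem nte_hor (B : BTree G r p) {a b : V} (h : G.Adj a b) (hd : G.dist r a = G.dist r b) :
    NTE G p a b := by
  have key : ∀ a b : V, G.Adj a b → G.dist r a = G.dist r b → p a ≠ b := by
    intro a b h hd e
    by_cases ha : a = r
    · subst ha
      rw [B.root] at e
      exact h.ne e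
    · have := (B.par a ha).2
      rw [e] at this
      omega
  exact ⟨h, key a b h hd, key b a h.symm hd.symm⟩

theorem nte_vert (B : BTree G r p) {a z : V} (h : G.Adj a z) (hd : G.dist r z = G.dist r a + 1)
    (hp : p z ≠ a) : NTE G p a z := by
  refine ⟨h, ?_, hp⟩
  intro e
  by_cases ha : a = r
  · subst ha
    rw [B.root] at e
    exact h.ne e
  · have := (B.par a ha).2
    rw [e] at this
    omega

theorem exists_childless [Finite V] (B : BTree G r p) (x : V) :
    ∃ v, Desc p x v ∧ ∀ u, u ≠ r → p u ≠ v := by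
  obtain ⟨v, hv, hmax⟩ := Set.exists_max_image {v | Desc p x v} (fun v => G.dist r v)
    (Set.toFinite _) ⟨x, Desc.base⟩
  refine ⟨v, hv, ?_⟩
  intro u hu hp
  have h1 := (B.par u hu).2
  have h2 := hmax u (Desc.step u (by rw [hp]; exact hv))
  rw [hp] at h1
  omega

theorem childless_nte [Fintype V] [DecidableRel G.Adj] (B : BTree G r p) {v : V} (hv : v ≠ r)
    (hch : ∀ u, u ≠ r → p u ≠ v) (hdeg : 2 ≤ G.degree v) : ∃ u, NTE G p v u := by
  classical
  obtain ⟨u, hu, hne⟩ := Finset.exists_mem_ne
    (show 1 < (G.neighborFinset v).card by rw [card_neighborFinset_eq_degree]; omega) (p v)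
  rw [mem_neighborFinset] at hu
  refine ⟨u, hu, hne.symm, ?_⟩
  by_cases hur : u = r
  · subst hur
    rw [B.root]
    exact hv.symm
  · exact hch u hur

/-- All ends of non-tree edges, the leaves and the root. -/
theorem good_all [Fintype V] [DecidableRel G.Adj] (B : BTree G r p)
    (hdeg : ∀ v, 1 ≤ G.degree v) (K : Set V) (h1 : ∀ v u, NTE G p v u → v ∈ K)
    (h2 : ∀ v, G.degree v = 1 → v ∈ K) (h3 : r ∈ K) : Good G r p K := by
  refine ⟨h3, ?_, ?_, ?_, ?_, ?_⟩
  · intro z hz
    obtain ⟨v, hv, hch⟩ := exists_childless B z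
    refine ⟨v, ?_, hv⟩
    by_cases hd : G.degree v = 1
    · exact h2 v hd
    · have := hdeg v
      obtain ⟨u, hu⟩ := childless_nte B (B.ne_root_of_desc hz hv) hch (by omega)
      exact h1 v u hu
  · intro a z h hd hp
    exact h1 a z (nte_vert B h hd hp)
  · intro a b h hd
    refine ⟨b, h1 b a (nte_symm (nte_hor B h hd)), ?_⟩
    rw [dist_self, B.dist_adj h.symm]
    exact Nat.one_pos
  · intro a b h hd
    exact Or.inl (h1 a b (nte_hor B h hd))
  · intro a b c d h hd h' hd' hne
    have main : ∀ a b c d : V, (¬ (a = c ∨ a = d)) →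
        min (G.dist a a) (G.dist a b) ≠ min (G.dist a c) (G.dist a d) := by
      intro a b c d hn
      push Not at hn
      rw [dist_self]
      have g1 : G.dist a c ≠ 0 := fun e => hn.1 (B.eq_of_dist e)
      have g2 : G.dist a d ≠ 0 := fun e => hn.2 (B.eq_of_dist e)
      omega
    by_cases ha : a = c ∨ a = d
    · by_cases hb : b = c ∨ b = d
      · exfalso
        apply hne
        have hab := h.ne
        rcases ha with rfl | rfl
        · rcases hb with rfl | rfl
          · exact absurd rfl hab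
          · rfl
        · rcases hb with rfl | rfl
          · exact Sym2.eq_swap
          · exact absurd rfl hab
      · refine ⟨b, h1 b a (nte_symm (nte_hor B h hd)), ?_⟩
        rw [min_comm]
        exact main b a c d hb
    · exact ⟨a, h1 a b (nte_hor B h hd), main a b c d ha⟩

/-- If the non-tree edges form a matching, one inner endpoint can be left out. -/
theorem good_drop [Fintype V] [DecidableRel G.Adj] (B : BTree G r p)
    (hdeg : ∀ v, 2 ≤ G.degree v) (hm : ∀ v u u', NTE G p v u → NTE G p v u' → u = u')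
    {z0 z2 c : V} (hz0 : z0 ≠ r) (h02 : NTE G p z0 z2) (hle : G.dist r z2 ≤ G.dist r z0)
    (hc : c ≠ r) (hcp : p c = z0)
    (hh : G.dist r z2 = G.dist r z0 → ∃ s u, NTE G p s u ∧ s ≠ z0 ∧ G.dist s z0 < G.dist s z2)
    (K : Set V) (hK : ∀ v, v ∈ K ↔ ((∃ u, NTE G p v u) ∨ v = r) ∧ v ≠ z0) :
    Good G r p K := by
  have hd1 : ∀ a b : V, a ≠ b → G.dist a b ≠ 0 := fun a b h e => h (B.eq_of_dist e)
  refine ⟨?_, ?_, ?_, ?_, ?_, ?_⟩
  · rw [hK]; exact ⟨Or.inr rfl, hz0.symm⟩
  · intro z hz
    obtain ⟨v, hv, hch⟩ := exists_childless B z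
    refine ⟨v, ?_, hv⟩
    rw [hK]
    refine ⟨Or.inl (childless_nte B (B.ne_root_of_desc hz hv) hch (hdeg v)), ?_⟩
    rintro rfl
    exact hch c hc hcp
  · intro a z h hd hp
    have hn := nte_vert B h hd hp
    rw [hK]
    refine ⟨Or.inl ⟨z, hn⟩, ?_⟩
    rintro rfl
    have := hm a z z2 hn h02
    subst this
    omega
  · intro a b h hd
    have hn := nte_hor B h hd
    by_cases hb : b = z0
    · subst hb
      have := hm b a z2 (nte_symm hn) h02
      subst this
      obtain ⟨s, u, g1, g2, g3⟩ := hh hd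
      exact ⟨s, (hK s).mpr ⟨Or.inl ⟨u, g1⟩, g2⟩, g3⟩
    · refine ⟨b, (hK b).mpr ⟨Or.inl ⟨a, nte_symm hn⟩, hb⟩, ?_⟩
      rw [dist_self, B.dist_adj h.symm]
      exact Nat.one_pos
  · intro a b h hd
    have hn := nte_hor B h hd
    by_cases ha : a = z0
    · right
      rw [hK]
      exact ⟨Or.inl ⟨a, nte_symm hn⟩, fun e => h.ne (ha.trans e.symm)⟩
    · left
      rw [hK]
      exact ⟨Or.inl ⟨b, hn⟩, ha⟩
  · intro a b c d h hd h' hd' hne
    have main : ∀ a b c d : V, NTE G p a b → NTE G p c d → s(a, b) ≠ s(c, d) →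
        min (G.dist a a) (G.dist a b) ≠ min (G.dist a c) (G.dist a d) := by
      intro a b c d g1 g2 g3
      have k1 : a ≠ c := by
        rintro rfl
        have := hm _ _ _ g1 g2
        subst this
        exact g3 rfl
      have k2 : a ≠ d := by
        rintro rfl
        have := hm _ _ _ g1 (nte_symm g2)
        subst this
        exact g3 Sym2.eq_swap
      have := hd1 _ _ k1
      have := hd1 _ _ k2
      rw [dist_self]
      omega
    have hn := nte_hor B h hd
    have hn' := nte_hor B h' hd'
    by_cases ha : a = z0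
    · refine ⟨b, (hK b).mpr ⟨Or.inl ⟨a, nte_symm hn⟩, fun e => h.ne (ha.trans e.symm)⟩, ?_⟩
      rw [min_comm]
      exact main b a c d (nte_symm hn) hn' (by rwa [Sym2.eq_swap])
    · exact ⟨a, (hK a).mpr ⟨Or.inl ⟨b, hn⟩, ha⟩, main a b c d hn hn' hne⟩

/-- Turning an edge whose ends see `m` through different neighbours into a good root. -/
theorem choose_root (hc : G.Connected) {m v v' a b : V} (hv : v ≠ m) (hv' : v' ≠ m)
    (hvv : G.Adj v v') (ha : G.Adj m a) (hb : G.Adj m b) (hab : a ≠ b)
    (h1 : G.dist v a + 1 = G.dist v m) (h2 : G.dist v' b + 1 = G.dist v' m) :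
    ∃ r, r ≠ m ∧ ((∃ a b, a ≠ b ∧ G.Adj m a ∧ G.Adj m b ∧ G.dist r a + 1 = G.dist r m ∧
      G.dist r b + 1 = G.dist r m) ∨ (∃ a, G.Adj m a ∧ G.dist r a = G.dist r m)) := by
  by_contra hcon
  push Not at hcon
  have k1 := hcon v hv
  have k2 := hcon v' hv'
  have tri : ∀ x y z : V, G.dist x z ≤ G.dist x y + G.dist y z := fun x y z => hc.dist_triangle
  have d1 : G.dist m a = 1 := dist_eq_one_iff_adj.mpr ha
  have d2 : G.dist m b = 1 := dist_eq_one_iff_adj.mpr hb
  have d1' : G.dist a m = 1 := dist_eq_one_iff_adj.mpr ha.symm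
  have d2' : G.dist b m = 1 := dist_eq_one_iff_adj.mpr hb.symm
  have d3 : G.dist v v' = 1 := dist_eq_one_iff_adj.mpr hvv
  have d4 : G.dist v' v = 1 := dist_eq_one_iff_adj.mpr hvv.symm
  have e1 : G.dist v b = G.dist v m + 1 := by
    have n1 := k1.2 b hb
    have n2 := k1.1 a b hab ha hb h1
    have t1 := tri v m b
    have t2 := tri v b m
    omega
  have e2 : G.dist v' a = G.dist v' m + 1 := by
    have n1 := k2.2 a ha
    have n2 := k2.1 b a hab.symm hb ha h2
    have t1 := tri v' m a
    have t2 := tri v' a m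
    omega
  have t1 := tri v v' b
  have t2 := tri v' v a
  omega

/-- A branch vertex together with a root from which it has two upward neighbours or a
horizontal neighbour. -/
theorem exists_pair [Fintype V] [DecidableRel G.Adj] (hc : G.Connected)
    (hdeg : ∀ v, 2 ≤ G.degree v) {y0 : V} (hy0 : 3 ≤ G.degree y0) :
    ∃ m r, 3 ≤ G.degree m ∧ r ≠ m ∧
      ((∃ a b, a ≠ b ∧ G.Adj m a ∧ G.Adj m b ∧ G.dist r a + 1 = G.dist r m ∧
      G.dist r b + 1 = G.dist r m) ∨ (∃ a, G.Adj m a ∧ G.dist r a = G.dist r m)) := by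
  classical
  obtain ⟨p, B⟩ := exists_bTree hc y0
  -- a neighbour of y0
  obtain ⟨x, hx⟩ := Finset.card_pos.mp
    (show 0 < (G.neighborFinset y0).card by rw [card_neighborFinset_eq_degree]; omega)
  rw [mem_neighborFinset] at hx
  obtain ⟨v, hv, hch⟩ := exists_childless B x
  obtain ⟨v', hvv⟩ := childless_nte B (B.ne_root_of_desc hx.ne' hv) hch (hdeg v)
  obtain ⟨m, hm, hmax⟩ := Set.exists_max_image {m | Desc p m v ∧ Desc p m v'}
    (fun m => G.dist y0 m) (Set.toFinite _) ⟨y0, B.desc_root v, B.desc_root v'⟩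
  have key : ∀ v v' : V, NTE G p v v' → Desc p v v' → False := by
    intro v v' h h1
    have e1 := B.desc_dist h1
    have e2 := B.dist_adj h.1
    cases h1 with
    | base => exact h.1.ne rfl
    | step _ h1 =>
      by_cases hr : v' = y0
      · subst hr
        rw [B.root] at h1
        have := B.desc_dist h1
        rw [dist_self] at this
        omega
      · have e3 := (B.par v' hr).2
        have e4 := B.desc_dist h1
        have e5 : G.dist v (p v') = 0 := by omega
        exact h.2.2 (B.eq_of_dist e5).symm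
  have hvm : v ≠ m := by
    rintro rfl
    exact key v v' hvv hm.2
  have hvm' : v' ≠ m := by
    rintro rfl
    exact key v' v (nte_symm hvv) hm.1
  obtain ⟨a, ha1, ha2, ha3⟩ := B.desc_child hm.1 hvm
  obtain ⟨b, hb1, hb2, hb3⟩ := B.desc_child hm.2 hvm'
  have hpa := B.par a ha1
  have hpb := B.par b hb1
  rw [ha2] at hpa
  rw [hb2] at hpb
  have hab : a ≠ b := by
    rintro rfl
    have := hmax a ⟨ha3, hb3⟩
    omega
  have hdegm : 3 ≤ G.degree m := by
    by_cases hmy : m = y0
    · rw [hmy]; exact hy0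
    · have hpm := B.par m hmy
      have hsub : ({p m, a, b} : Finset V) ⊆ G.neighborFinset m := by
        intro u hu
        rw [mem_neighborFinset]
        simp only [Finset.mem_insert, Finset.mem_singleton] at hu
        rcases hu with rfl | rfl | rfl
        · exact hpm.1
        · exact hpa.1.symm
        · exact hpb.1.symm
      have hcard : ({p m, a, b} : Finset V).card = 3 := by
        rw [Finset.card_eq_three]
        refine ⟨p m, a, b, ?_, ?_, hab, rfl⟩
        · rintro h; rw [← h] at hpa; omega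
        · rintro h; rw [← h] at hpb; omega
      have := Finset.card_le_card hsub
      rw [hcard, card_neighborFinset_eq_degree] at this
      exact this
  obtain ⟨r, hr1, hr2⟩ := choose_root hc hvm hvm' hvv.1 hpa.1.symm hpb.1.symm hab
    (by
      have e1 := B.desc_dist ha3
      have e2 := B.desc_dist hm.1
      rw [G.dist_comm (u := v) (v := a), G.dist_comm (u := v) (v := m)]
      omega)
    (by
      have e1 := B.desc_dist hb3
      have e2 := B.desc_dist hm.2
      rw [G.dist_comm (u := v') (v := b), G.dist_comm (u := v') (v := m)]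
      omega)
  exact ⟨m, r, hdegm, hr1, hr2⟩

end Pool.Agent.Y405
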