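import Mathlib

set_option autoImplicit false

/-!
Breadth-first trees and mixed resolving sets.
-/

namespace Pool.Agent.Y405

open SimpleGraph

variable {V : Type*}

/-- `p` is the parent map of a breadth-first tree of the connected graph `G` with root `r`. -/
structure BTree (G : SimpleGraph V) (r : V) (p : V → V) : Prop where
  conn : G.Connected
  par : ∀ v, v ≠ r → G.Adj v (p v) ∧ G.dist r (p v) + 1 = G.dist r v
  root : p r = r

/-- non-tree edges -/
def NTE (G : SimpleGraph V) (p : V → V) (u v : V) : Prop :=
  G.Adj u v ∧ p u ≠ v ∧ p v ≠ u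

/-- `v` lies in the subtree of `x`. -/
inductive Desc (p : V → V) (x : V) : V → Prop
  | base : Desc p x x
  | step (v : V) (h : Desc p x (p v)) : Desc p x v

variable {G : SimpleGraph V} {r : V} {p : V → V}

theorem nte_symm {u v : V} (h : NTE G p u v) : NTE G p v u := ⟨h.1.symm, h.2.2, h.2.1⟩

theorem exists_bTree (hc : G.Connected) (r : V) : ∃ p, BTree G r p := by
  classical
  have h : ∀ v, v ≠ r → ∃ u, G.Adj v u ∧ G.dist r u + 1 = G.dist r v := by
    intro v hv
    obtain ⟨w, hw⟩ := hc.exists_walk_length_eq_dist v r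
    cases w with
    | nil => exact absurd rfl hv
    | cons hadj q =>
      rename_i z
      refine ⟨z, hadj, ?_⟩
      have h1 : G.dist z r ≤ q.length := dist_le q
      have h2 : G.dist v r ≤ G.dist v z + G.dist z r := hc.dist_triangle
      have h3 : G.dist v z = 1 := dist_eq_one_iff_adj.mpr hadj
      rw [G.dist_comm (u := r) (v := z), G.dist_comm (u := r) (v := v)]
      simp only [Walk.length_cons] at hw
      omega
  refine ⟨fun v => if hv : v = r then r else (h v hv).choose, hc, ?_, by simp⟩
  intro v hv
  simp only [hv, dif_neg, not_false_eq_true]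
  exact (h v hv).choose_spec

theorem exists_next (hc : G.Connected) {s x : V} (h : s ≠ x) :
    ∃ z, G.Adj s z ∧ G.dist z x + 1 = G.dist s x := by
  obtain ⟨w, hw⟩ := hc.exists_walk_length_eq_dist s x
  cases w with
  | nil => exact absurd rfl h
  | cons hadj q =>
    rename_i z
    refine ⟨z, hadj, ?_⟩
    have h1 : G.dist z x ≤ q.length := dist_le q
    have h2 : G.dist s x ≤ G.dist s z + G.dist z x := hc.dist_triangle
    have h3 : G.dist s z = 1 := dist_eq_one_iff_adj.mpr hadj
    simp only [Walk.length_cons] at hw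
    omega

namespace BTree

theorem tri (B : BTree G r p) (a b c : V) : G.dist a c ≤ G.dist a b + G.dist b c :=
  B.conn.dist_triangle

theorem dist_adj (_B : BTree G r p) {a b : V} (h : G.Adj a b) : G.dist a b = 1 :=
  dist_eq_one_iff_adj.mpr h

theorem adj_dep (B : BTree G r p) {a b : V} (h : G.Adj a b) : G.dist r a ≤ G.dist r b + 1 := by
  have h1 := B.tri r b a
  have h2 := B.dist_adj h.symm
  omega

theorem eq_of_dist (B : BTree G r p) {a b : V} (h : G.dist a b = 0) : a = b :=
  (B.conn.dist_eq_zero_iff).mp h

/-- distances from a vertex to its tree ancestors are differences of depths. -/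
theorem desc_dist (B : BTree G r p) {x v : V} (h : Desc p x v) :
    G.dist r v = G.dist r x + G.dist x v := by
  induction h with
  | base => simp
  | step v h ih =>
    by_cases hv : v = r
    · subst hv; rwa [B.root] at ih
    · obtain ⟨h1, h2⟩ := B.par v hv
      have h3 := B.tri x (p v) v
      have h4 := B.dist_adj h1.symm
      have h5 := B.tri r x v
      omega

theorem desc_disj (B : BTree G r p) {x x' v : V} (hd : G.dist r x = G.dist r x')
    (h : Desc p x v) (h' : Desc p x' v) : x = x' := by
  induction h with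
  | base =>
    have := B.desc_dist h'
    exact (B.eq_of_dist (by omega)).symm
  | step v h ih =>
    cases h' with
    | base =>
      have := B.desc_dist (Desc.step _ h)
      exact B.eq_of_dist (by omega)
    | step _ h' => exact ih h'

theorem desc_root (B : BTree G r p) (v : V) : Desc p r v := by
  have : ∀ n v, G.dist r v = n → Desc p r v := by
    intro n
    induction n with
    | zero =>
      intro v hv
      have := B.eq_of_dist hv
      subst this
      exact Desc.base
    | succ n ih =>
      intro v hv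
      have hne : v ≠ r := by rintro rfl; simp at hv
      obtain ⟨-, h2⟩ := B.par v hne
      exact Desc.step v (ih (p v) (by omega))
  exact this _ v rfl

theorem ne_root_of_desc (B : BTree G r p) {x v : V} (hx : x ≠ r) (h : Desc p x v) : v ≠ r := by
  rintro rfl
  have := B.desc_dist h
  rw [dist_self] at this
  exact hx (B.eq_of_dist (a := v) (b := x) (by omega)).symm

theorem desc_child (B : BTree G r p) {m v : V} (h : Desc p m v) (hne : v ≠ m) :
    ∃ x, x ≠ r ∧ p x = m ∧ Desc p x v := by
  induction h with
  | base => exact absurd rfl hne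
  | step v h ih =>
    by_cases hv : p v = m
    · refine ⟨v, ?_, hv, Desc.base⟩
      rintro rfl
      rw [B.root] at hv
      exact hne hv
    · obtain ⟨x, h1, h2, h3⟩ := ih hv
      exact ⟨x, h1, h2, Desc.step v h3⟩

theorem desc_of_child (_B : BTree G r p) {m x v : V} (hx : p x = m) (h : Desc p x v) :
    Desc p m v := by
  induction h with
  | base => subst hx; exact Desc.step x Desc.base
  | step v h ih => exact Desc.step v ih

/-- a depth-monotone geodesic from `x` which leaves the subtree of `x` uses a vertical non-tree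
edge whose upper end is in the subtree. -/
theorem exit (B : BTree G r p) (x : V) : ∀ (l : ℕ) (w : V), G.dist x w = l →
    G.dist r w = G.dist r x + l → ¬ Desc p x w →
    ∃ a z, Desc p x a ∧ G.Adj a z ∧ G.dist r z = G.dist r a + 1 ∧ p z ≠ a ∧
      G.dist r a < G.dist r w := by
  intro l
  induction l with
  | zero =>
    intro w h1 _ h3
    have := B.eq_of_dist h1
    subst this
    exact absurd Desc.base h3
  | succ l ih =>
    intro w h1 h2 h3
    have hne : w ≠ x := by rintro rfl; simp at h1
    obtain ⟨u, hu1, hu2⟩ := exists_next B.conn hne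
    rw [G.dist_comm (u := u), G.dist_comm (u := w)] at hu2
    have h4 := B.tri r x u
    have h5 := B.adj_dep hu1
    by_cases hu : Desc p x u
    · refine ⟨u, w, hu, hu1.symm, by omega, ?_, by omega⟩
      intro hp
      exact h3 (Desc.step w (hp ▸ hu))
    · obtain ⟨a, z, g1, g2, g3, g4, g5⟩ := ih u (by omega) (by omega) hu
      exact ⟨a, z, g1, g2, g3, g4, by omega⟩

/-- Main lemma. -/
theorem main_lemma (B : BTree G r p) (K : Set V) {x x' : V}
    (hd : G.dist r x = G.dist r x') (hne : x ≠ x')
    (h1 : ∃ w ∈ K, Desc p x w)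
    (h3 : ∀ a z, Desc p x a ∨ Desc p x' a → G.Adj a z → G.dist r z = G.dist r a + 1 →
      p z ≠ a → a ∈ K) :
    (∃ w ∈ K, Desc p x w ∧ G.dist w x < G.dist w x') ∨
    (∃ w ∈ K, Desc p x' w ∧ G.dist w x' < G.dist w x) := by
  by_contra hcon
  push Not at hcon
  obtain ⟨c1, c2⟩ := hcon
  have key : ∀ n w, G.dist r w = n → w ∈ K → (Desc p x w ∨ Desc p x' w) → False := by
    intro n
    induction n using Nat.strong_induction_on with
    | _ n ih =>
      intro w hw hwK hD
      rcases hD with hD | hD
      · have e1 := B.desc_dist hD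
        have e2 := c1 w hwK hD
        have e3 := B.tri r x' w
        rw [G.dist_comm (u := w), G.dist_comm (u := w)] at e2
        have hnot : ¬ Desc p x' w := fun h => hne (B.desc_disj hd hD h)
        obtain ⟨a, z, g1, g2, g3, g4, g5⟩ := B.exit x' (G.dist x' w) w rfl (by omega) hnot
        exact ih _ (by omega) a rfl (h3 a z (Or.inr g1) g2 g3 g4) (Or.inr g1)
      · have e1 := B.desc_dist hD
        have e2 := c2 w hwK hD
        have e3 := B.tri r x w
        rw [G.dist_comm (u := w), G.dist_comm (u := w)] at e2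
        have hnot : ¬ Desc p x w := fun h => hne (B.desc_disj hd h hD)
        obtain ⟨a, z, g1, g2, g3, g4, g5⟩ := B.exit x (G.dist x w) w rfl (by omega) hnot
        exact ih _ (by omega) a rfl (h3 a z (Or.inl g1) g2 g3 g4) (Or.inl g1)
  obtain ⟨w, hw, hD⟩ := h1
  exact key _ w rfl hw (Or.inl hD)

end BTree

/-- Sufficient conditions for a mixed resolving set. -/
structure Good (G : SimpleGraph V) (r : V) (p : V → V) (K : Set V) : Prop where
  root : r ∈ K
  sub : ∀ z, z ≠ r → ∃ w ∈ K, Desc p z w
  vert : ∀ a z, G.Adj a z → G.dist r z = G.dist r a + 1 → p z ≠ a → a ∈ K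
  hor : ∀ a b, G.Adj a b → G.dist r a = G.dist r b → ∃ s ∈ K, G.dist s b < G.dist s a
  hor1 : ∀ a b, G.Adj a b → G.dist r a = G.dist r b → a ∈ K ∨ b ∈ K
  hor2 : ∀ a b c d, G.Adj a b → G.dist r a = G.dist r b → G.Adj c d →
    G.dist r c = G.dist r d → s(a, b) ≠ s(c, d) → ∃ s ∈ K,
      min (G.dist s a) (G.dist s b) ≠ min (G.dist s c) (G.dist s d)

/-- Mixed resolving, unfolded. -/
structure MixRes (G : SimpleGraph V) (K : Set V) : Prop where
  vv : ∀ x y : V, x ≠ y → ∃ s ∈ K, G.dist s x ≠ G.dist s y
  ve : ∀ x a b : V, G.Adj a b → ∃ s ∈ K, G.dist s x ≠ min (G.dist s a) (G.dist s b)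
  ee : ∀ a b c d : V, G.Adj a b → G.Adj c d → s(a, b) ≠ s(c, d) →
    ∃ s ∈ K, min (G.dist s a) (G.dist s b) ≠ min (G.dist s c) (G.dist s d)

theorem ne_root_of_dep {z : V} {n : ℕ} (h : G.dist r z = n + 1) : z ≠ r := by
  rintro rfl
  simp at h

/-- a landmark below `z` is strictly closer to a vertical edge with lower end `z` than to any
vertex of the depth of the upper end. -/
theorem below (B : BTree G r p) {a z w x : V} (hz : G.dist r z = G.dist r a + 1)
    (hx : G.dist r x = G.dist r a) (hw : Desc p z w) : G.dist w z < G.dist w x := by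
  have e1 := B.desc_dist hw
  have e2 := B.tri r x w
  rw [G.dist_comm (u := w), G.dist_comm (u := w)]
  omega

theorem ve_vert (B : BTree G r p) {K : Set V} (H : Good G r p K) {x a z : V}
    (hz : G.dist r z = G.dist r a + 1) (hx : G.dist r x = G.dist r a) :
    ∃ s ∈ K, G.dist s x ≠ min (G.dist s a) (G.dist s z) := by
  obtain ⟨w, hw, hD⟩ := H.sub z (ne_root_of_dep hz)
  have := below B hz hx hD
  refine ⟨w, hw, ?_⟩
  intro h
  have := min_le_right (G.dist w a) (G.dist w z)
  omega

theorem ve_hor (B : BTree G r p) {K : Set V} (H : Good G r p K) {x a b : V}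
    (hab : G.Adj a b) (hd : G.dist r a = G.dist r b) :
    ∃ s ∈ K, G.dist s x ≠ min (G.dist s a) (G.dist s b) := by
  by_cases h1 : x = a
  · subst h1
    obtain ⟨s, hs, h⟩ := H.hor x b hab hd
    exact ⟨s, hs, fun e => by have := min_le_right (G.dist s x) (G.dist s b); omega⟩
  by_cases h2 : x = b
  · subst h2
    obtain ⟨s, hs, h⟩ := H.hor x a hab.symm hd.symm
    exact ⟨s, hs, fun e => by have := min_le_left (G.dist s a) (G.dist s x); omega⟩
  rcases H.hor1 a b hab hd with h | h
  · refine ⟨a, h, fun e => h1 ?_⟩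
    have e' := min_le_left (G.dist a a) (G.dist a b)
    rw [dist_self] at e' 
    rw [dist_self] at e
    exact (B.eq_of_dist (a := a) (b := x) (by omega)).symm
  · refine ⟨b, h, fun e => h2 ?_⟩
    have e' := min_le_right (G.dist b a) (G.dist b b)
    rw [dist_self] at e'
    rw [dist_self] at e
    exact (B.eq_of_dist (a := b) (b := x) (by omega)).symm

/-- edges at different depth-types -/
theorem ee_vh (B : BTree G r p) {K : Set V} (H : Good G r p K) {a z c d : V}
    (hz : G.dist r z = G.dist r a + 1) (hc : G.dist r c = G.dist r a)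
    (hd : G.dist r d = G.dist r a) :
    ∃ s ∈ K, min (G.dist s a) (G.dist s z) ≠ min (G.dist s c) (G.dist s d) := by
  obtain ⟨w, hw, hD⟩ := H.sub z (ne_root_of_dep hz)
  have g1 := below B hz hc hD
  have g2 := below B hz hd hD
  refine ⟨w, hw, ?_⟩
  omega

theorem ee_vv (B : BTree G r p) {K : Set V} (H : Good G r p K) {a z a' z' : V}
    (haz : G.Adj a z) (haz' : G.Adj a' z')
    (hz : G.dist r z = G.dist r a + 1) (hz' : G.dist r z' = G.dist r a' + 1)
    (hd : G.dist r a = G.dist r a') (hne : s(a, z) ≠ s(a', z')) :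
    ∃ s ∈ K, min (G.dist s a) (G.dist s z) ≠ min (G.dist s a') (G.dist s z') := by
  by_cases hzz : z = z'
  · subst hzz
    have haa : a ≠ a' := by rintro rfl; exact hne rfl
    have main : ∀ a a' : V, G.Adj a z → G.Adj a' z → a ≠ a' → G.dist r z = G.dist r a + 1 →
        p z ≠ a → ∃ s ∈ K, min (G.dist s a) (G.dist s z) ≠ min (G.dist s a') (G.dist s z) := by
      intro a a' k1 k2 k3 k4 k5
      refine ⟨a, H.vert a z k1 k4 k5, ?_⟩
      rw [dist_self]
      have h0 : G.dist a a' ≠ 0 := fun e => k3 (B.eq_of_dist e)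
      have h1 := B.dist_adj k1
      omega
    by_cases hp : p z = a
    · obtain ⟨s, hs, h⟩ := main a' a haz' haz haa.symm hz' (by rw [hp]; exact haa)
      exact ⟨s, hs, h.symm⟩
    · exact main a a' haz haz' haa hz hp
  · have hK := B.main_lemma K (x := z) (x' := z') (by omega) hzz
      (H.sub z (ne_root_of_dep hz)) (fun a z _ g1 g2 g3 => H.vert a z g1 g2 g3)
    rcases hK with ⟨w, hw, hD, hlt⟩ | ⟨w, hw, hD, hlt⟩
    · have g1 := below B hz hd.symm hD
      have g2 := B.tri r a' w
      have e1 := B.desc_dist hD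
      rw [G.dist_comm (u := r) (v := w)] at *
      refine ⟨w, hw, ?_⟩
      omega
    · have g1 := below B hz' hd hD
      refine ⟨w, hw, ?_⟩
      omega

theorem Good.mixRes (B : BTree G r p) {K : Set V} (H : Good G r p K) : MixRes G K := by
  have hroot : ∀ (m n : ℕ), m ≠ n → True := fun _ _ _ => trivial
  refine ⟨?_, ?_, ?_⟩
  · intro x y hxy
    by_cases hd : G.dist r x = G.dist r y
    · have hx : x ≠ r := by
        rintro rfl
        rw [dist_self] at hd
        exact hxy (B.eq_of_dist hd.symm)
      rcases B.main_lemma K hd hxy (H.sub x hx) (fun a z _ g1 g2 g3 => H.vert a z g1 g2 g3) with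
        ⟨w, hw, -, h⟩ | ⟨w, hw, -, h⟩
      · exact ⟨w, hw, by omega⟩
      · exact ⟨w, hw, by omega⟩
    · exact ⟨r, H.root, hd⟩
  · intro x a b hab
    by_cases hd : G.dist r x = min (G.dist r a) (G.dist r b)
    · have h1 := B.adj_dep hab
      have h2 := B.adj_dep hab.symm
      rcases lt_trichotomy (G.dist r a) (G.dist r b) with h | h | h
      · exact ve_vert B H (by omega) (by omega)
      · exact ve_hor B H hab h
      · obtain ⟨s, hs, g⟩ := ve_vert B H (x := x) (a := b) (z := a) (by omega) (by omega)
        exact ⟨s, hs, by rwa [min_comm]⟩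
    · exact ⟨r, H.root, hd⟩
  · intro a b c d hab hcd hne
    by_cases hd : min (G.dist r a) (G.dist r b) = min (G.dist r c) (G.dist r d)
    · -- normalise orientations
      have main : ∀ a b c d : V, G.Adj a b → G.Adj c d → s(a, b) ≠ s(c, d) →
          G.dist r a ≤ G.dist r b → G.dist r c ≤ G.dist r d → G.dist r a = G.dist r c →
          ∃ s ∈ K, min (G.dist s a) (G.dist s b) ≠ min (G.dist s c) (G.dist s d) := by
        intro a b c d hab hcd hne k1 k2 k3
        have h1 := B.adj_dep hab.symm
        have h2 := B.adj_dep hcd.symm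
        rcases Nat.eq_or_lt_of_le k1 with j1 | j1
        · rcases Nat.eq_or_lt_of_le k2 with j2 | j2
          · exact H.hor2 a b c d hab j1 hcd j2 hne
          · obtain ⟨s, hs, g⟩ := ee_vh B H (a := c) (z := d) (c := a) (d := b) (by omega)
              (by omega) (by omega)
            exact ⟨s, hs, g.symm⟩
        · rcases Nat.eq_or_lt_of_le k2 with j2 | j2
          · exact ee_vh B H (by omega) (by omega) (by omega)
          · exact ee_vv B H hab hcd (by omega) (by omega) k3 hne
      rcases le_total (G.dist r a) (G.dist r b) with k1 | k1 <;>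
      rcases le_total (G.dist r c) (G.dist r d) with k2 | k2
      · exact main a b c d hab hcd hne k1 k2 (by omega)
      · obtain ⟨s, hs, g⟩ := main a b d c hab hcd.symm (by rwa [Sym2.eq_swap (a := d)]) k1 k2
          (by omega)
        exact ⟨s, hs, by rwa [min_comm (G.dist s c)]⟩
      · obtain ⟨s, hs, g⟩ := main b a c d hab.symm hcd (by rwa [Sym2.eq_swap (a := b)]) k1 k2
          (by omega)
        exact ⟨s, hs, by rwa [min_comm (G.dist s a)]⟩
      · obtain ⟨s, hs, g⟩ := main b a d c hab.symm hcd.symm
          (by rwa [Sym2.eq_swap (a := b), Sym2.eq_swap (a := d)]) k1 k2 (by omega)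
        exact ⟨s, hs, by rwa [min_comm (G.dist s a), min_comm (G.dist s c)]⟩
    · exact ⟨r, H.root, hd⟩

end Pool.Agent.Y405
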